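import Pool.Agent.N912.MS.Stm
import Pool.Agent.W78.GA.Basic
import Pool.Agent.H970R2.X.Cell
import Pool.Agent.H970R2.X.Rap

/-! Project MS (helper912), part MS4 (helper707): the cells. -/

set_option autoImplicit false

namespace Pool.Agent.N707.MS

open Finset Filter
open Pool.Agent.H376R2.MR (ch FR)
open Pool.Agent.W78.GA (Qd nm ang ps nm_zero ps_eq_exp)
open Pool.Agent.H970R2.X (cellP mmp P1)
open Pool.Agent.N912.MS

theorem gq_ne {p : ℕ} (hp : p ≠ 0) : gq p ≠ 0 := by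
  classical
  unfold gq
  split_ifs with h
  · intro h0
    have h1 := h.choose_spec
    rw [h0, nm_zero] at h1
    exact hp h1.symm
  · intro h0
    have h1 : nm (1 : Gi) = nm (0 : Gi) := by rw [h0]
    rw [Pool.Agent.W78.GA.nm_one, nm_zero] at h1
    exact one_ne_zero h1

theorem chi_eq {z : Gi} (hz : z ≠ 0) (κ : ℤ × ℤ) :
    chi κ z = Complex.exp ((ph κ z : ℝ) * Complex.I) := by
  unfold chi ph ch
  rw [ps_eq_exp (by norm_num) hz, ← Complex.exp_add]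
  congr 1
  push_cast
  ring

theorem abs_cos_le (θ : ℝ) : |Real.cos θ| ≤ 1 - 1 / 4 * (1 - Real.cos (2 * θ)) := by
  rw [Real.cos_two_mul]
  have h1 : Real.cos θ ^ 2 = |Real.cos θ| ^ 2 := (sq_abs _).symm
  rw [h1]
  nlinarith [sq_nonneg (|Real.cos θ| - 1)]

theorem ph_two (κ : ℤ × ℤ) (z : Gi) : ph (2 * κ.1, 2 * κ.2) z = 2 * ph κ z := by
  unfold ph
  push_cast
  ring

theorem nrm_two (κ : ℤ × ℤ) : nrm (2 * κ.1, 2 * κ.2) = 4 * nrm κ := by
  unfold nrm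
  simp only [mul_pow]
  norm_num
  rw [mul_max_of_nonneg _ _ (by norm_num : (0:ℤ) ≤ 4)]

/-- one cell -/
theorem cell_le {f : Gi → ℝ} (hf : ∀ z, |f z| ≤ 1) (κ : ℤ × ℤ) (H v R : ℕ) (hR1 : 1 ≤ R) {D : ℝ}
    (hs : ∀ φ : ℝ, ∑ p ∈ cellP (P1 4) H v,
      FR R (ph (2 * κ.1, 2 * κ.2) (gq p) + φ) / (p : ℝ) ≤ D) :
    ‖P2 f H v κ‖ ≤ m2 H v - (R * m2 H v - D) / (8 * (R : ℝ) ^ 3) := by
  have hRpos : (0 : ℝ) < R := by exact_mod_cast hR1
  set PP0 : ℂ := ∑ p ∈ cellP (P1 4) H v, (f (gq p) : ℂ) * chi κ (gq p) / (p : ℂ) with hP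
  have hPE : ‖P2 f H v κ‖ = ‖PP0‖ := by rw [P2, norm_neg]
  rw [hPE]
  have hp0 : ∀ p ∈ cellP (P1 4) H v, p ≠ 0 := by
    classical
    intro p hp
    unfold cellP at hp
    rw [mem_filter, Pool.Agent.H376R2.MR.cell, mem_filter] at hp
    exact hp.1.2.1.ne_zero
  obtain ⟨φ, hφ⟩ : ∃ φ : ℝ, ‖PP0‖ =
      ∑ p ∈ cellP (P1 4) H v, f (gq p) * Real.cos (ph κ (gq p) + φ) / (p : ℝ) := by
    refine ⟨-Complex.arg PP0, ?_⟩
    have h1 : (‖PP0‖ : ℂ) = PP0 * Complex.exp (-(Complex.arg PP0 : ℝ) * Complex.I) := by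
      have h0 := Complex.norm_mul_exp_arg_mul_I PP0
      calc (‖PP0‖ : ℂ) = (‖PP0‖ : ℂ) * Complex.exp ((Complex.arg PP0 : ℝ) * Complex.I) *
            Complex.exp (-(Complex.arg PP0 : ℝ) * Complex.I) := by
            rw [mul_assoc, ← Complex.exp_add]; simp
        _ = PP0 * Complex.exp (-(Complex.arg PP0 : ℝ) * Complex.I) := by rw [h0]
    have h2 : ‖PP0‖ = (PP0 * Complex.exp (-(Complex.arg PP0 : ℝ) * Complex.I)).re := by
      rw [← h1, Complex.ofReal_re]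
    set A : ℝ := Complex.arg PP0 with hA
    rw [h2, hP]
    rw [Finset.sum_mul, Complex.re_sum]
    refine Finset.sum_congr rfl fun p hp => ?_
    rw [chi_eq (gq_ne (hp0 p hp))]
    have h3 : (f (gq p) : ℂ) * Complex.exp ((ph κ (gq p) : ℝ) * Complex.I) / (p : ℂ) *
        Complex.exp (-(A : ℂ) * Complex.I) =
        ((f (gq p) / (p : ℝ) : ℝ) : ℂ) *
          Complex.exp (((ph κ (gq p) + -A : ℝ) : ℂ) * Complex.I) := by
      have h4 : ((ph κ (gq p) + -A : ℝ) : ℂ) * Complex.I =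
        (ph κ (gq p) : ℝ) * Complex.I + -(A : ℂ) * Complex.I := by
        push_cast; ring
      rw [h4, Complex.exp_add]
      push_cast
      ring
    rw [h3, Complex.re_ofReal_mul, Complex.exp_ofReal_mul_I_re]
    ring
  have hs' := hs (2 * φ)
  have hup : ‖PP0‖ ≤ m2 H v - 1 / 4 * ∑ p ∈ cellP (P1 4) H v,
      (1 - Real.cos (2 * (ph κ (gq p) + φ))) / (p : ℝ) := by
    rw [hφ, m2, mmp, Finset.mul_sum, ← Finset.sum_sub_distrib]
    refine Finset.sum_le_sum fun p _ => ?_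
    have h1 : f (gq p) * Real.cos (ph κ (gq p) + φ) ≤
        1 - 1 / 4 * (1 - Real.cos (2 * (ph κ (gq p) + φ))) := by
      calc f (gq p) * Real.cos (ph κ (gq p) + φ)
          ≤ |f (gq p) * Real.cos (ph κ (gq p) + φ)| := le_abs_self _
        _ = |f (gq p)| * |Real.cos (ph κ (gq p) + φ)| := abs_mul _ _
        _ ≤ 1 * |Real.cos (ph κ (gq p) + φ)| :=
            mul_le_mul_of_nonneg_right (hf _) (abs_nonneg _)
        _ = |Real.cos (ph κ (gq p) + φ)| := one_mul _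
        _ ≤ _ := abs_cos_le _
    have h2 := mul_le_mul_of_nonneg_right h1 (show (0:ℝ) ≤ 1 / (p : ℝ) by positivity)
    calc f (gq p) * Real.cos (ph κ (gq p) + φ) / (p : ℝ)
        = f (gq p) * Real.cos (ph κ (gq p) + φ) * (1 / (p : ℝ)) := by ring
      _ ≤ _ := h2
      _ = _ := by ring
  have hlow : R * m2 H v - 2 * (R : ℝ) ^ 3 * ∑ p ∈ cellP (P1 4) H v,
      (1 - Real.cos (2 * (ph κ (gq p) + φ))) / (p : ℝ) ≤
      ∑ p ∈ cellP (P1 4) H v, FR R (ph (2 * κ.1, 2 * κ.2) (gq p) + 2 * φ) / (p : ℝ) := by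
    rw [m2, mmp, Finset.mul_sum, Finset.mul_sum, ← Finset.sum_sub_distrib]
    refine Finset.sum_le_sum fun p _ => ?_
    have h := Pool.Agent.H970R2.X.xcell_FR R hR1 (ph (2 * κ.1, 2 * κ.2) (gq p) + 2 * φ)
    have e : ph (2 * κ.1, 2 * κ.2) (gq p) + 2 * φ = 2 * (ph κ (gq p) + φ) := by
      rw [ph_two]; ring
    rw [e] at h ⊢
    have h2 := mul_le_mul_of_nonneg_right h (show (0:ℝ) ≤ 1 / (p : ℝ) by positivity)
    calc (R : ℝ) * (1 / (p : ℝ)) - 2 * (R : ℝ) ^ 3 *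
          ((1 - Real.cos (2 * (ph κ (gq p) + φ))) / (p : ℝ))
        = (R - 2 * (R : ℝ) ^ 3 * (1 - Real.cos (2 * (ph κ (gq p) + φ)))) * (1 / (p : ℝ)) := by
          ring
      _ ≤ FR R (2 * (ph κ (gq p) + φ)) * (1 / (p : ℝ)) := h2
      _ = FR R (2 * (ph κ (gq p) + φ)) / (p : ℝ) := by ring
  set T₁ : ℝ := ∑ p ∈ cellP (P1 4) H v, (1 - Real.cos (2 * (ph κ (gq p) + φ))) / (p : ℝ)
  have h5 : R * m2 H v - D ≤ 2 * (R : ℝ) ^ 3 * T₁ := by linarith
  have h6 : (R * m2 H v - D) / (8 * (R : ℝ) ^ 3) ≤ 1 / 4 * T₁ := by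
    rw [div_le_iff₀ (by positivity)]
    linarith
  linarith

theorem cell2 (h : S_SEL2) : S_CELL2 := by
  intro f hf
  obtain ⟨C, hC, hsel⟩ := h
  obtain ⟨c, hc, -, hrich⟩ := Pool.Agent.H970R2.X.rich_ap 4 (by norm_num)
  obtain ⟨R, hR⟩ := exists_nat_ge (2 * C / c + 1)
  have hR1' : (1 : ℝ) ≤ R := by
    have : 0 ≤ 2 * C / c := by positivity
    linarith
  have hR1 : 1 ≤ R := by exact_mod_cast hR1'
  have hRpos : (0 : ℝ) < R := by linarith
  have hRC : C ≤ R / 2 * c := by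
    have h1 : 2 * C / c ≤ R := by linarith
    rw [div_le_iff₀ hc] at h1
    linarith
  refine ⟨1 / (16 * (R : ℝ) ^ 2), by positivity, ?_, 1, fun M H hH => ?_⟩
  · rw [div_le_one (by positivity)]
    nlinarith
  have hHpos : (0 : ℝ) < H := by exact_mod_cast hH
  obtain ⟨L₀, V₁, hV₁⟩ := hsel (M + 1) H R hH hR1
  obtain ⟨V₂, hV₂⟩ := hrich H hH
  refine ⟨L₀, max (max V₁ V₂) (max (2 * H) 1), fun v₀ v₁ hv₀ _ κ hκ hn => ?_⟩
  rw [Finset.mul_sum]
  refine Finset.sum_le_sum fun v hv => ?_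
  have hv2 : v₀ ≤ v := (Finset.mem_Ico.mp hv).1
  have hV1 : V₁ ≤ v := le_trans (le_trans (le_max_left _ _) (le_max_left _ _)) (hv₀.trans hv2)
  have hV2 : V₂ ≤ v := le_trans (le_trans (le_max_right _ _) (le_max_left _ _)) (hv₀.trans hv2)
  have hVH : 2 * H ≤ v := le_trans (le_trans (le_max_left _ _) (le_max_right _ _)) (hv₀.trans hv2)
  have hv1 : 1 ≤ v := le_trans (le_trans (le_max_right _ _) (le_max_right _ _)) (hv₀.trans hv2)
  have hvpos : (0 : ℝ) < v := by exact_mod_cast hv1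
  have hκ' : ((2 * κ.1, 2 * κ.2) : ℤ × ℤ).1 ≠ 0 ∨ (L₀ : ℤ) ≤ |((2 * κ.1, 2 * κ.2) : ℤ × ℤ).2| := by
    rcases hκ with h1 | h1
    · exact Or.inl (mul_ne_zero two_ne_zero h1)
    · right
      show (L₀ : ℤ) ≤ |2 * κ.2|
      rw [abs_mul]
      have h2 := abs_nonneg κ.2
      have h3 : |(2:ℤ)| = 2 := rfl
      rw [h3]
      linarith
  have hn' : ((nrm (2 * κ.1, 2 * κ.2) : ℤ) : ℝ) ≤ Real.exp ((M + 1 : ℕ) * (v : ℝ) / H) := by
    rw [nrm_two]
    push_cast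
    have h1 : (nrm κ : ℝ) ≤ Real.exp (M * (v : ℝ) / H) := by
      refine hn.trans (Real.exp_le_exp.mpr ?_)
      apply div_le_div_of_nonneg_right _ hHpos.le
      exact mul_le_mul_of_nonneg_left (by exact_mod_cast hv2) (Nat.cast_nonneg _)
    have h2 : (4:ℝ) ≤ Real.exp ((v : ℝ) / H) := by
      have h3 : (2:ℝ) ≤ (v : ℝ) / H := by
        rw [le_div_iff₀ hHpos]
        exact_mod_cast hVH
      have h4 : (2:ℝ) ≤ Real.exp 1 := by
        have := Real.add_one_le_exp (1:ℝ)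
        linarith
      calc (4:ℝ) = 2 * 2 := by norm_num
        _ ≤ Real.exp 1 * Real.exp 1 := mul_le_mul h4 h4 (by norm_num) (Real.exp_pos _).le
        _ = Real.exp 2 := by rw [← Real.exp_add]; norm_num
        _ ≤ Real.exp ((v : ℝ) / H) := Real.exp_le_exp.mpr h3
    calc 4 * (nrm κ : ℝ) ≤ 4 * Real.exp (M * (v : ℝ) / H) := by linarith
      _ ≤ Real.exp ((v : ℝ) / H) * Real.exp (M * (v : ℝ) / H) :=
          mul_le_mul_of_nonneg_right h2 (Real.exp_pos _).le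
      _ = Real.exp (((M : ℝ) + 1) * (v : ℝ) / H) := by
          rw [← Real.exp_add]
          congr 1
          ring
  have hm : c / v ≤ m2 H v := hV₂ v hV2
  have hcell := cell_le hf.bd κ H v R hR1 (D := C / v) fun φ => hV₁ v hV1 _ hκ' hn' φ
  have h7 : C / v ≤ R / 2 * m2 H v := by
    calc C / v ≤ R / 2 * c / v := div_le_div_of_nonneg_right hRC hvpos.le
      _ = R / 2 * (c / v) := by ring
      _ ≤ R / 2 * m2 H v := mul_le_mul_of_nonneg_left hm (by positivity)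
  refine hcell.trans ?_
  have h8 : 1 / (16 * (R : ℝ) ^ 2) * m2 H v ≤ (R * m2 H v - C / v) / (8 * (R : ℝ) ^ 3) := by
    rw [le_div_iff₀ (by positivity)]
    have h9 : 1 / (16 * (R : ℝ) ^ 2) * m2 H v * (8 * (R : ℝ) ^ 3) = R / 2 * m2 H v := by
      field_simp
      ring
    rw [h9]
    linarith
  linarith

end Pool.Agent.N707.MS
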